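import Pool.Agent.H798.BV.Stm3

set_option autoImplicit false

/-!
# (KZ): the second moment of the zeros around `a` (helper694, for project B3 of helper798)
-/

open Polynomial MeasureTheory

namespace Pool.Agent.H694.BV

open Pool.Agent.H798.BV

namespace KZ

theorem q2_nonneg (z : ℂ) : 0 ≤ q2 z := by
  unfold q2
  positivity

theorem q2_ofReal_le (a : ℝ) (h0 : 0 ≤ a) (h1 : a ≤ 1) : q2 (a : ℂ) ≤ 1 := by
  unfold q2
  rw [Complex.ofReal_re, Complex.norm_real, Real.norm_eq_abs, sq_abs,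
    div_le_one (by positivity)]
  nlinarith

theorem term0 (p : ℝ) (hp : 1 < p) (a : ℝ) (h0 : 0 ≤ a) (h1 : a ≤ 1) :
    0 ≤ 1 + (p - 2) * q2 (a : ℂ) := by
  have h2 := q2_ofReal_le a h0 h1
  have h3 := q2_nonneg (a : ℂ)
  nlinarith [mul_nonneg (by linarith : (0 : ℝ) ≤ p - 1) h3]

theorem chi_a (p : ℝ) (a : ℝ) (h0 : 0 < a) : a * (chi p (a : ℂ)).re = a ^ p := by
  unfold chi
  rw [← Complex.ofReal_mul, Complex.ofReal_re, Complex.norm_real, Real.norm_eq_abs,
    abs_of_pos h0]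
  have h : a ^ p = a ^ (p - 2) * a ^ (2 : ℝ) := by
    rw [← Real.rpow_add h0]
    congr 1
    ring
  rw [h, Real.rpow_two]
  ring

theorem log_prod (m : ℕ) (a : ℝ) (s : Fin m → ℂ)
    (h : (m : ℝ) + 1 ≤ ‖∏ j : Fin m, ((a : ℂ) - s j)‖) :
    (∀ j, 0 < ‖s j - a‖) ∧ Real.log (m + 1) ≤ ∑ j, Real.log ‖s j - a‖ := by
  have hm : (0 : ℝ) < (m : ℝ) + 1 := by positivity
  have hne : ∀ j, ((a : ℂ) - s j) ≠ 0 := by
    intro j hj
    have : (∏ j : Fin m, ((a : ℂ) - s j)) = 0 := Finset.prod_eq_zero (Finset.mem_univ j) hj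
    rw [this, norm_zero] at h
    linarith
  have hpos : ∀ j, 0 < ‖s j - a‖ := by
    intro j
    rw [norm_sub_rev]
    exact norm_pos_iff.2 (hne j)
  refine ⟨hpos, ?_⟩
  rw [← Real.log_prod (fun j _ => (hpos j).ne')]
  refine Real.log_le_log hm ?_
  rw [norm_prod] at h
  refine h.trans (le_of_eq ?_)
  exact Finset.prod_congr rfl (fun j _ => norm_sub_rev _ _)

end KZ

theorem t_KZ (h1 : S_MOM) (h2 : S_TAY) : S_KZ := by
  intro p hp η hη
  obtain ⟨K₁, hK₁, hM⟩ := h1 p hp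
  obtain ⟨K₂, a₂, hK₂, ha₂, hT⟩ := h2 p hp (η / 4) (by linarith)
  have hβ1 : 1 < min p 2 := lt_min hp (by norm_num)
  set β : ℝ := min p 2 with hβ
  have hγ : 0 < 2 * β - 2 := by linarith
  set ε : ℝ := η / (8 * K₁ * K₂) with hε
  have hε0 : 0 < ε := by positivity
  set a₃ : ℝ := ε ^ (1 / (2 * β - 2)) with ha₃
  have ha₃0 : 0 < a₃ := Real.rpow_pos_of_pos hε0 _
  refine ⟨min 1 (min a₂ a₃), max 2 (4 * (p - 1) / η), lt_min one_pos (lt_min ha₂ ha₃0),
    lt_max_of_lt_left (by norm_num), ?_⟩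
  intro m hm z a hz0 ha0 haa hT₀ hsum hchi hprod
  have ha1 : a ≤ 1 := haa.trans (min_le_left _ _)
  have haa2 : a ≤ a₂ := haa.trans ((min_le_right _ _).trans (min_le_left _ _))
  have haa3 : a ≤ a₃ := haa.trans ((min_le_right _ _).trans (min_le_right _ _))
  have hT2 : (2 : ℝ) ≤ m * a ^ 2 := (le_max_left _ _).trans hT₀
  have hT3 : 4 * (p - 1) / η ≤ m * a ^ 2 := (le_max_right _ _).trans hT₀
  have ha : 0 < a := by
    rcases ha0.lt_or_eq with h | h
    · exact h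
    · exfalso
      rw [← h] at hT2
      norm_num at hT2
  have hm0 : (0 : ℝ) ≤ m := Nat.cast_nonneg m
  have ha21 : a ^ 2 ≤ 1 := by nlinarith
  have hm2 : (2 : ℝ) ≤ m := by nlinarith
  obtain ⟨hR, hlog⟩ := KZ.log_prod m a (fun j => z j.succ) hprod
  -- the sums over all zeros
  have hz : ∀ f : ℂ → ℝ, ∑ j, f (z j) = f (a : ℂ) + ∑ j : Fin m, f (z j.succ) := by
    intro f
    rw [Fin.sum_univ_succ, hz0]
  have hchi' : ∑ j, (chi p (z j)).re = 0 := by
    rw [← Complex.re_sum, hchi, Complex.zero_re]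
  have hp0 : p ≠ 0 := by linarith
  have hzero : ‖(a : ℂ) - a‖ ^ p = 0 := by
    rw [sub_self, norm_zero, Real.zero_rpow hp0]
  have hna : ‖(a : ℂ)‖ = a := by
    rw [Complex.norm_real, Real.norm_eq_abs, abs_of_pos ha]
  -- (MOM)
  have hS1 : ∑ j : Fin m, ‖z j.succ - a‖ ^ p ≤ (m + 1) * (1 + K₁ * a ^ β) := by
    have h3 := hM (m + 1) z (by rw [hsum]; push_cast; ring) hchi a (by rw [hna]; exact ha1)
    rw [hz (fun w => ‖w - a‖ ^ p), hna] at h3
    simp only [hzero, zero_add] at h3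
    push_cast at h3
    exact h3
  have hlog1 : 1 ≤ p * Real.log (m + 1) := by
    have h4 : 1 ≤ Real.log (m + 1) := by
      rw [Real.le_log_iff_exp_le (by positivity)]
      have := Real.exp_one_lt_d9
      linarith
    nlinarith
  have hβa : 0 ≤ a ^ β := Real.rpow_nonneg ha0 _
  have hS3 : ∑ j : Fin m, Ph p ‖z j.succ - a‖ ≤ 2 * K₁ * (m * a ^ β) := by
    have h5 : ∑ j : Fin m, Ph p ‖z j.succ - a‖ =
        ∑ j : Fin m, ‖z j.succ - a‖ ^ p - m - p * ∑ j : Fin m, Real.log ‖z j.succ - a‖ := by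
      unfold Ph
      rw [Finset.sum_sub_distrib, Finset.sum_sub_distrib, ← Finset.mul_sum]
      simp
    rw [h5]
    have h6 : p * Real.log (m + 1) ≤ p * ∑ j : Fin m, Real.log ‖z j.succ - a‖ :=
      mul_le_mul_of_nonneg_left hlog (by linarith)
    have h7 : 0 ≤ (m - 1) * (K₁ * a ^ β) := mul_nonneg (by linarith) (by positivity)
    nlinarith
  -- (TAY)
  have hS4 : ∑ j : Fin m, ‖z j.succ - a‖ ^ p ≤
      ∑ j : Fin m, ‖z j.succ‖ ^ p - p * (a * ∑ j : Fin m, (chi p (z j.succ)).re)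
        + p / 2 * a ^ 2 * ∑ j : Fin m, (1 + (p - 2) * q2 (z j.succ))
        + m * (η / 4 * a ^ 2) + K₂ * (a ^ β * ∑ j : Fin m, Ph p ‖z j.succ - a‖) := by
    have h8 : ∀ j : Fin m, ‖z j.succ - a‖ ^ p ≤
        ‖z j.succ‖ ^ p - p * (a * (chi p (z j.succ)).re)
          + p / 2 * a ^ 2 * (1 + (p - 2) * q2 (z j.succ))
          + η / 4 * a ^ 2 + K₂ * (a ^ β * Ph p ‖z j.succ - a‖) := by
      intro j
      refine hT a ha0 haa2 (z j.succ) ?_
      intro h
      have := hR j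
      simp only [h, sub_self, norm_zero, lt_self_iff_false] at this
    refine (Finset.sum_le_sum (fun j _ => h8 j)).trans (le_of_eq ?_)
    simp only [Finset.sum_add_distrib, Finset.sum_sub_distrib, ← Finset.mul_sum,
      Finset.sum_const, Finset.card_univ, Fintype.card_fin, nsmul_eq_mul]
    ring
  -- the terms with `j = 0`
  have hA : ∑ j : Fin m, ‖z j.succ‖ ^ p = (m + 1) - a ^ p := by
    have h9 := hz (fun w => ‖w‖ ^ p)
    simp only [hsum, hna] at h9
    linarith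
  have hB : a * ∑ j : Fin m, (chi p (z j.succ)).re = - a ^ p := by
    have h9 := hz (fun w => (chi p w).re)
    simp only [hchi'] at h9
    have h10 := KZ.chi_a p a ha
    have h11 : ∑ j : Fin m, (chi p (z j.succ)).re = - (chi p (a : ℂ)).re := by linarith
    rw [h11]
    linarith
  have hC := hz (fun w => 1 + (p - 2) * q2 w)
  have hD := hz (fun w => ‖w - a‖ ^ p)
  simp only [hzero, zero_add] at hC hD
  have hE := KZ.term0 p hp a ha0 ha1
  -- the errors
  have hF : a ^ β * a ^ β ≤ ε * a ^ 2 := by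
    have h12 : a ^ β * a ^ β = a ^ (2 * β - 2) * a ^ 2 := by
      rw [← Real.rpow_two, ← Real.rpow_add ha, ← Real.rpow_add ha]
      congr 1
      ring
    have h13 : a ^ (2 * β - 2) ≤ ε := by
      calc a ^ (2 * β - 2) ≤ a₃ ^ (2 * β - 2) := Real.rpow_le_rpow ha0 haa3 hγ.le
        _ = ε := by
          rw [ha₃, ← Real.rpow_mul hε0.le, one_div, inv_mul_cancel₀ hγ.ne', Real.rpow_one]
    rw [h12]
    exact mul_le_mul_of_nonneg_right h13 (by positivity)
  have hG : K₂ * (a ^ β * ∑ j : Fin m, Ph p ‖z j.succ - a‖) ≤ η / 4 * (m * a ^ 2) := by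
    calc K₂ * (a ^ β * ∑ j : Fin m, Ph p ‖z j.succ - a‖)
        ≤ K₂ * (a ^ β * (2 * K₁ * (m * a ^ β))) :=
          mul_le_mul_of_nonneg_left (mul_le_mul_of_nonneg_left hS3 hβa) hK₂.le
      _ = 2 * K₁ * K₂ * m * (a ^ β * a ^ β) := by ring
      _ ≤ 2 * K₁ * K₂ * m * (ε * a ^ 2) := mul_le_mul_of_nonneg_left hF (by positivity)
      _ = η / 4 * (m * a ^ 2) := by
          rw [hε]
          field_simp
          ring
  have hH : (p - 1) * a ^ p ≤ η / 4 * (m * a ^ 2) := by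
    have h14 : a ^ p ≤ 1 := Real.rpow_le_one ha0 ha1 (by linarith)
    have h15 : p - 1 ≤ η / 4 * (m * a ^ 2) := by
      rw [div_le_iff₀ hη] at hT3
      linarith
    have h16 : (p - 1) * a ^ p ≤ (p - 1) * 1 :=
      mul_le_mul_of_nonneg_left h14 (by linarith)
    linarith
  have hI : 0 ≤ p / 2 * a ^ 2 * (1 + (p - 2) * q2 (a : ℂ)) := mul_nonneg (by positivity) hE
  have hJ : 0 ≤ η * (m * a ^ 2) := by positivity
  rw [hD]
  rw [hC, mul_add]
  rw [hA, hB] at hS4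
  linarith

end Pool.Agent.H694.BV
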